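import Pool.Agent.Helper13.TR.StC

/-!
# Project TR, module GCO: open intervals
-/

set_option autoImplicit false

namespace Pool.Agent.Helper9.TR

open Set Topology Pool.Agent.Helper13.TR

private lemma gco_ball (E : Type) [NormedAddCommGroup E] [NormedSpace ℝ E] (g : E) (O : Set E)
    (hO : IsOpen O) (hg : g ∈ O) :
    ∃ O' : Set E, IsOpen O' ∧ g ∈ O' ∧ O' ⊆ O ∧ Nonempty (↥O' ≃ₜ E) := by
  obtain ⟨ε, hε, hb⟩ := Metric.isOpen_iff.1 hO g hg
  refine ⟨Metric.ball g ε, Metric.isOpen_ball, Metric.mem_ball_self hε, hb, ?_⟩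
  have e := (OpenPartialHomeomorph.univBall g ε).toHomeomorphSourceTarget
  rw [OpenPartialHomeomorph.univBall_source, OpenPartialHomeomorph.univBall_target g hε] at e
  exact ⟨e.symm.trans (Homeomorph.Set.univ E)⟩

/-- GCO: open intervals and squares. -/
theorem hGCO : StGCO :=
  ⟨fun g O hO hg => gco_ball ℝ g O hO hg, fun g O hO hg => gco_ball (ℝ × ℝ) g O hO hg⟩

end Pool.Agent.Helper9.TR
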