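import Pool.Agent.Helper13.TR.StA

/-!
# Project TR, module SM: small chains
-/

set_option autoImplicit false

namespace Pool.Agent.Helper9.TR

open Set Topology Pool.Agent.Helper13.TR

private lemma sm_mem_bdIn_succ {X : Type} [TopologicalSpace X]
    (M : ∀ k : ℕ, Submodule ℤ (Ch X k)) (n : ℕ) (c : Ch X (n + 1)) :
    c ∈ BdIn M (n + 1) ↔ bd n c ∈ M n := Iff.rfl

private lemma sm_Sd_sup (hSDA : StSDA) {X : Type} [TopologicalSpace X] (O₁ O₂ : Set X) (n : ℕ)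
    (c : Ch X n) (hc : c ∈ cin O₁ n ⊔ cin O₂ n) : Sd n c ∈ cin O₁ n ⊔ cin O₂ n := by
  obtain ⟨-, -, -, -, h⟩ := hSDA X
  obtain ⟨y, hy, z, hz, rfl⟩ := Submodule.mem_sup.1 hc
  rw [map_add]
  exact Submodule.add_mem_sup (h O₁ n y hy).1 (h O₂ n z hz).1

private lemma sm_Th_sup (hSDA : StSDA) {X : Type} [TopologicalSpace X] (O₁ O₂ : Set X) (n : ℕ)
    (c : Ch X n) (hc : c ∈ cin O₁ n ⊔ cin O₂ n) : Th n c ∈ cin O₁ (n + 1) ⊔ cin O₂ (n + 1) := by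
  obtain ⟨-, -, -, -, h⟩ := hSDA X
  obtain ⟨y, hy, z, hz, rfl⟩ := Submodule.mem_sup.1 hc
  rw [map_add]
  exact Submodule.add_mem_sup (h O₁ n y hy).2 (h O₂ n z hz).2

private lemma sm_main (hSDA : StSDA) {X : Type} [TopologicalSpace X] (O₁ O₂ : Set X) (n : ℕ) :
    ∀ (m : ℕ) (c : Ch X n), c ∈ cin (O₁ ∪ O₂) n →
      c ∈ BdIn (fun k => cin O₁ k ⊔ cin O₂ k) n → ((Sd n)^[m]) c ∈ cin O₁ n ⊔ cin O₂ n →
      ∃ c₁ ∈ cin O₁ n, ∃ c₂ ∈ cin O₂ n, ∃ e ∈ cin (O₁ ∪ O₂) (n + 1), c = c₁ + c₂ + bd n e := by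
  have hS := hSDA X
  obtain ⟨-, hb, ht, ht0, hc5⟩ := hS
  intro m
  induction m with
  | zero =>
    intro c _ _ h3
    obtain ⟨y, hy, z, hz, hyz⟩ := Submodule.mem_sup.1 h3
    refine ⟨y, hy, z, hz, 0, Submodule.zero_mem _, ?_⟩
    rw [map_zero, add_zero, hyz]
    rfl
  | succ m ih =>
    intro c h1 h2 h3
    rw [Function.iterate_succ_apply] at h3
    have h1' : Sd n c ∈ cin (O₁ ∪ O₂) n := (hc5 _ n c h1).1
    have hT : Th n c ∈ cin (O₁ ∪ O₂) (n + 1) := (hc5 _ n c h1).2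
    cases n with
    | zero =>
      obtain ⟨c₁, hc₁, c₂, hc₂, e, he, h⟩ := ih (Sd 0 c) h1' Submodule.mem_top h3
      refine ⟨c₁, hc₁, c₂, hc₂, e + Th 0 c, Submodule.add_mem _ he hT, ?_⟩
      rw [map_add, ht0 c, ← add_assoc, ← h]
      abel
    | succ k =>
      have h2' : bd k c ∈ cin O₁ k ⊔ cin O₂ k := h2
      have h2'' : Sd (k + 1) c ∈ BdIn (fun k => cin O₁ k ⊔ cin O₂ k) (k + 1) := by
        rw [sm_mem_bdIn_succ, hb]
        exact sm_Sd_sup hSDA O₁ O₂ k _ h2'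
      obtain ⟨c₁, hc₁, c₂, hc₂, e, he, h⟩ := ih (Sd (k + 1) c) h1' h2'' h3
      obtain ⟨d₁, hd₁, d₂, hd₂, hd⟩ := Submodule.mem_sup.1 (sm_Th_sup hSDA O₁ O₂ k _ h2')
      refine ⟨c₁ + d₁, Submodule.add_mem _ hc₁ hd₁, c₂ + d₂, Submodule.add_mem _ hc₂ hd₂,
        e + Th (k + 1) c, Submodule.add_mem _ he hT, ?_⟩
      have h4 := ht k c
      have h5 : c = Sd (k + 1) c + bd (k + 1) (Th (k + 1) c) + Th k (bd k c) := by
        rw [add_assoc, h4]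
        abel
      rw [map_add]
      calc c = Sd (k + 1) c + bd (k + 1) (Th (k + 1) c) + Th k (bd k c) := h5
        _ = (c₁ + c₂ + bd (k + 1) e) + bd (k + 1) (Th (k + 1) c) + (d₁ + d₂) := by rw [hd, ← h]
        _ = c₁ + d₁ + (c₂ + d₂) + (bd (k + 1) e + bd (k + 1) (Th (k + 1) c)) := by abel

/-- SM: small chains. -/
theorem hSM (hSDA : StSDA) (hSDE : StSDE) : StSM := by
  intro X _ O₁ O₂ hO₁ hO₂ n c hc hb
  obtain ⟨m, hm⟩ := hSDE X O₁ O₂ hO₁ hO₂ n c hc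
  exact sm_main hSDA O₁ O₂ n m c hc hb hm

end Pool.Agent.Helper9.TR
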